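import Pool.Agent.W528.HB.Main
import Pool.Agent.W800.HA.GD
import Pool.Agent.W800.HA.TE
import Pool.Agent.W782.HA.AL
import Pool.Agent.W605.HA.BD
import Pool.Agent.W346.HA.EM
import Pool.Agent.W999.HB.TP
import Pool.Agent.W400.HB.TT
import Pool.Agent.W271.HB.AY
import Pool.Agent.W540.HB.GO
import Pool.Agent.W135.HB.SA
import Pool.Agent.W883.HB.DG
import Pool.Agent.W563.HB.DI

set_option autoImplicit false

namespace Pool.Agent.W528.HB

open Finset Polynomial Pool.Agent.W528.HA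

/-- No root of unity is an eigenvalue of Frobenius. -/
theorem noRoot {c : ℕ} [Fact c.Prime] {N : ℕ} (hN : 2 ≤ N)
    (κ : Type) [Field κ] [Fintype κ] [CharP κ c] {f : ℕ} (hf : Fintype.card κ = c ^ f)
    {ι : Type} [Fintype ι] (d : ℕ)
    (l : ι → Fin (2 * d + 1) → κ) (a : ι → ℕ) (ha : ∀ i, a i < N)
    {j : ℕ} (hj : j.Coprime N)
    (hjd : ∑ i, ∑ s ∈ range f, (j * a i * c ^ s) % N < f * N * (d + 1))
    {z : κ} (hz : IsPrimitiveRoot z N) {E V : Type} [Field E] [CharZero E] [IsAlgClosed E]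
    [AddCommGroup V] [Module E V] [FiniteDimensional E V] {μ : E} (hμ : IsPrimitiveRoot μ N)
    (A : Module.End E V) (hA : TraceFormula κ N d l a z μ A) (m : ℕ) (hm : 0 < m) (v : V)
    (hv : (A ^ m) v = v) : v = 0 :=
  no_root Pool.Agent.W800.HA.GD.main (Pool.Agent.W883.HB.DG.main Pool.Agent.W135.HB.SA.main)
    Pool.Agent.W563.HB.DI.main Pool.Agent.W271.HB.AY.main Pool.Agent.W540.HB.GO.main
    Pool.Agent.W400.HB.TT.main Pool.Agent.W999.HB.TP.main Pool.Agent.W800.HA.TE.main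
    Pool.Agent.W782.HA.AL.main Pool.Agent.W605.HA.BD.main Pool.Agent.W346.HA.EM.main hN κ hf d l a
    ha hj hjd hz hμ A hA m hm v hv

end Pool.Agent.W528.HB
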