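import Pool.Agent.W528.HB.Stm
import Pool.Agent.W528.HA.Lift

/-!
# The estimates in any characteristic
-/

set_option autoImplicit false

namespace Pool.Agent.W528.HB

open Finset Polynomial Pool.Agent.W528.HA

section

variable {c : ℕ} [Fact c.Prime]

lemma exists_pow_eq' {N : ℕ} (L : Type) [Field L] [Fintype L] (hN : 1 ≤ N)
    (hd : N ∣ Fintype.card L - 1) {z : L} (hz : z ^ N = 1) :
    ∃ y : L, y ≠ 0 ∧ y ^ ((Fintype.card L - 1) / N) = z := by
  classical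
  have hz0 : z ≠ 0 := by
    rintro rfl
    rw [zero_pow (by omega)] at hz
    exact zero_ne_one hz
  obtain ⟨g, hg⟩ := IsCyclic.exists_generator (α := Lˣ)
  obtain ⟨k, hk⟩ := (IsOfFinOrder.mem_powers_iff_mem_zpowers (isOfFinOrder_of_finite g)).mpr
    (hg (Units.mk0 z hz0))
  simp only at hk
  obtain ⟨u, hu⟩ := hd
  have hord : orderOf g = Fintype.card L - 1 := by
    rw [orderOf_eq_card_of_forall_mem_zpowers hg, Nat.card_eq_fintype_card, Fintype.card_units]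
  have h1 : g ^ (k * N) = 1 := by
    rw [pow_mul, hk]
    ext
    push_cast
    exact hz
  have h2 : N * u ∣ k * N := by
    rw [← hu, ← hord]
    exact orderOf_dvd_of_pow_eq_one h1
  have h3 : u ∣ k := by
    rw [mul_comm k N] at h2
    exact Nat.dvd_of_mul_dvd_mul_left (by omega) h2
  obtain ⟨k', rfl⟩ := h3
  refine ⟨((g ^ k' : Lˣ) : L), Units.ne_zero _, ?_⟩
  have hN0 : N ≠ 0 := by omega
  rw [hu, Nat.mul_div_cancel_left u (by omega), ← Units.val_pow_eq_pow_val, ← pow_mul, mul_comm k' u,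
    hk, Units.val_mk0]

lemma dvd_card_of_root {L : Type} [Field L] [Fintype L] {N : ℕ} {z : L}
    (hz : IsPrimitiveRoot z N) (hN : 1 ≤ N) : N ∣ Fintype.card L - 1 := by
  have hz0 : z ≠ 0 := hz.ne_zero (by omega)
  exact hz.dvd_of_pow_eq_one _ (FiniteField.pow_card_sub_one_eq_one z hz0)

lemma root_unique' {k : Type} [Field k] {R : Subring (PadicAlgCl c)} {res : R →+* k} {N : ℕ}
    (hN : 1 ≤ N) (hNk : (N : k) ≠ 0) {w w' : R}
    (h : w ^ N = 1) (h' : w' ^ N = 1) (hw : res w = res w') : w = w' := by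
  have h1 := (Commute.all w w').geom_sum₂_mul N
  rw [h, h', sub_self, mul_eq_zero] at h1
  rcases h1 with h1 | h1
  · exfalso
    have h2 := congrArg res h1
    rw [map_sum, map_zero] at h2
    have h3 : ∀ i ∈ range N, res (w ^ i * w' ^ (N - 1 - i)) = res w ^ (N - 1) := by
      intro i hi
      rw [mem_range] at hi
      rw [map_mul, map_pow, map_pow, ← hw, ← pow_add]
      congr 1
      omega
    rw [sum_congr rfl h3, sum_const, card_range, nsmul_eq_mul, mul_eq_zero] at h2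
    rcases h2 with h2 | h2
    · exact hNk h2
    · have h4 : res w ^ N = 1 := by rw [← map_pow, h, map_one]
      have h5 : res w = 0 := by
        by_contra h6
        exact pow_ne_zero _ h6 h2
      rw [h5, zero_pow (by omega)] at h4
      exact zero_ne_one h4
  · exact sub_eq_zero.mp h1

/-- The character of order `N` obtained from the Teichmueller character. -/
lemma kvT {k : Type} [Field k] {R : Subring (PadicAlgCl c)} {res : R →+* k}
    {L : Type} [Field L] [Fintype L] {e : L →+* k}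
    {w : MulChar L (PadicAlgCl c)} (hw : IsW c R res e w) {N : ℕ} (hN : 1 ≤ N)
    (hNk : (N : k) ≠ 0) {z : L} (hz : IsPrimitiveRoot z N) {Ω : PadicAlgCl c} (hΩ : Ω ^ N = 1)
    (hΩz : ∃ h : Ω ∈ R, res ⟨Ω, h⟩ = e z) (b : ℕ) (y : L) (hb : 1 ≤ b) :
    (w ^ ((Fintype.card L - 1) / N)) y ^ b
      = kv N z (Ω ^ b) (y ^ ((Fintype.card L - 1) / N)) := by
  classical
  have hd := dvd_card_of_root hz hN
  have hQ := Fintype.one_lt_card (α := L)
  have hu : (Fintype.card L - 1) / N ≠ 0 := by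
    have := Nat.div_pos (Nat.le_of_dvd (by omega) hd) (by omega : 0 < N)
    omega
  have hwz : w z = Ω := by
    obtain ⟨h1, h2⟩ := hw z
    obtain ⟨h3, h4⟩ := hΩz
    have h5 : (⟨w z, h1⟩ : R) = ⟨Ω, h3⟩ := by
      apply root_unique' hN hNk
      · apply Subtype.ext
        change w z ^ N = 1
        rw [← map_pow, hz.pow_eq_one, map_one]
      · apply Subtype.ext
        exact hΩ
      · rw [h2, h4]
    exact congrArg Subtype.val h5
  by_cases hy : y = 0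
  · rw [hy, MulChar.map_zero, zero_pow (by omega), zero_pow hu]
    unfold kv
    symm
    apply sum_eq_zero
    intro i _
    rw [if_neg]
    intro h
    exact pow_ne_zero i (hz.ne_zero (by omega)) h.symm
  · have h1 : (y ^ ((Fintype.card L - 1) / N)) ^ N = 1 := by
      rw [← pow_mul, Nat.div_mul_cancel hd, FiniteField.pow_card_sub_one_eq_one y hy]
    have : NeZero N := ⟨by omega⟩
    obtain ⟨i, hi, hiz⟩ := hz.eq_pow_of_pow_eq_one h1
    rw [MulChar.pow_apply' w hu, ← map_pow, ← hiz, map_pow, hwz]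
    unfold kv
    rw [sum_eq_single i]
    · rw [if_pos rfl, ← pow_mul, ← pow_mul, mul_comm]
    · intro i' hi' hne
      rw [if_neg]
      intro h
      exact hne (hz.pow_inj (mem_range.mp hi') hi h.symm)
    · intro h
      exact absurd (mem_range.mpr hi) h

lemma T_pow_card {L : Type} [Field L] [Fintype L] (w : MulChar L (PadicAlgCl c)) {N : ℕ}
    (hd : N ∣ Fintype.card L - 1) : (w ^ ((Fintype.card L - 1) / N)) ^ N = 1 := by
  rw [← pow_mul, Nat.div_mul_cancel hd]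
  ext y
  rw [MulChar.pow_apply_coe, MulChar.one_apply_coe, ← map_pow,
    FiniteField.pow_card_sub_one_eq_one _ y.ne_zero, map_one]

/-- Stickelberger's inequality. -/
lemma norm_gauss (hDG : DG) (hDI : DI) {L : Type} [Field L] [Fintype L] [CharP L c]
    (w : MulChar L (PadicAlgCl c)) (ψ : AddChar L (PadicAlgCl c)) (hψ : ψ.IsPrimitive)
    (hψc : ∀ y, ψ (y ^ c) = ψ y)
    (hw : ‖((c : ℕ) : PadicAlgCl c)‖ ≤ ‖gaussSum w⁻¹ ψ‖ ^ (c - 1)) {N F : ℕ}
    (hF : Fintype.card L = c ^ F) (hN : N ∣ Fintype.card L - 1) (hF0 : 0 < F) (b : ℕ) (hb : b < N) :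
    ‖((c : ℕ) : PadicAlgCl c)‖ ^ (∑ s ∈ range F, (b * c ^ s) % N)
      ≤ ‖gaussSum ((w ^ ((Fintype.card L - 1) / N)) ^ b)⁻¹ ψ‖ ^ N := by
  have hc2 : 2 ≤ c := (Fact.out : c.Prime).two_le
  have h1 := hDG c L w ψ hψ hψc hw (b * ((c ^ F - 1) / N))
  have h2 := hDI c N F hc2 (by rw [← hF]; exact hN) hF0 b hb
  have h3 : w ^ (b * ((c ^ F - 1) / N)) = (w ^ ((Fintype.card L - 1) / N)) ^ b := by
    rw [← pow_mul, hF, mul_comm]
  rw [h3] at h1
  have h4 := pow_le_pow_left₀ (pow_nonneg (norm_nonneg _) _) h1 N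
  rw [← pow_mul, mul_comm _ N, h2, ← pow_mul, mul_comm (c - 1) N, pow_mul _ N (c - 1),
    mul_comm (c - 1), pow_mul _ _ (c - 1)] at h4
  exact le_of_pow_le_pow_left₀ (by omega) (pow_nonneg (norm_nonneg _) _) h4

lemma est (hGD : GD) (hDG : DG) (hDI : DI) {L : Type} [Field L] [Fintype L] [CharP L c]
    (w : MulChar L (PadicAlgCl c)) (ψ : AddChar L (PadicAlgCl c)) (hψ : ψ.IsPrimitive)
    (hψc : ∀ y, ψ (y ^ c) = ψ y)
    (hw : ‖((c : ℕ) : PadicAlgCl c)‖ ≤ ‖gaussSum w⁻¹ ψ‖ ^ (c - 1)) {N F : ℕ}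
    (hF : Fintype.card L = c ^ F) (hN : N ∣ Fintype.card L - 1) (hF0 : 0 < F)
    (hne : ∀ b, 1 ≤ b → b < N → (w ^ ((Fintype.card L - 1) / N)) ^ b ≠ 1)
    (M : ℕ) (ι : Type) [Fintype ι] (l : ι → Fin M → L) (b : ι → ℕ)
    (hb : ∀ i, 1 ≤ b i ∧ b i < N) :
    ‖∑ x : Fin M → L, ∏ i, ((w ^ ((Fintype.card L - 1) / N)) ^ b i) (∑ k, l i k * x k)‖ ^ N
        * ‖((c : ℕ) : PadicAlgCl c)‖ ^ (∑ i, ∑ s ∈ range F, (b i * c ^ s) % N)
      ≤ ‖((c : ℕ) : PadicAlgCl c)‖ ^ (F * M * N) := by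
  classical
  set T := w ^ ((Fintype.card L - 1) / N) with hT
  have hd := hGD L (PadicAlgCl c) M ι l (fun i => T ^ b i) ψ hψ
    (fun i => hne (b i) (hb i).1 (hb i).2)
  have h2 : ‖∑ t ∈ univ.filter (fun t : ι → L => ∀ k, ∑ i, t i * l i k = 0),
      ∏ i, (T ^ b i)⁻¹ (t i)‖ ≤ 1 := by
    apply norm_sum_le_one
    intro t _
    rw [norm_prod]
    exact prod_le_one (fun i _ => norm_nonneg _) fun i _ => mulChar_norm_le _ _
  have h3 := congrArg norm hd
  rw [norm_mul, norm_mul, norm_pow, norm_prod] at h3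
  have h4 : (∏ i, ‖gaussSum (T ^ b i)⁻¹ ψ‖)
      * ‖∑ x : Fin M → L, ∏ i, (T ^ b i) (∑ k, l i k * x k)‖
      ≤ ‖((Fintype.card L : ℕ) : PadicAlgCl c)‖ ^ M := by
    rw [h3]
    exact mul_le_of_le_one_right (pow_nonneg (norm_nonneg _) _) h2
  have h5 : ‖((c : ℕ) : PadicAlgCl c)‖ ^ (∑ i, ∑ s ∈ range F, (b i * c ^ s) % N)
      ≤ (∏ i, ‖gaussSum (T ^ b i)⁻¹ ψ‖) ^ N := by
    rw [← prod_pow_eq_pow_sum, ← prod_pow]
    apply prod_le_prod
    · intro i _
      exact pow_nonneg (norm_nonneg _) _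
    · intro i _
      exact norm_gauss hDG hDI w ψ hψ hψc hw hF hN hF0 (b i) (hb i).2
  have h6 : ‖((Fintype.card L : ℕ) : PadicAlgCl c)‖ = ‖((c : ℕ) : PadicAlgCl c)‖ ^ F := by
    rw [hF]
    push_cast
    rw [norm_pow]
  calc _ ≤ ‖∑ x : Fin M → L, ∏ i, (T ^ b i) (∑ k, l i k * x k)‖ ^ N
        * (∏ i, ‖gaussSum (T ^ b i)⁻¹ ψ‖) ^ N :=
        mul_le_mul_of_nonneg_left h5 (pow_nonneg (norm_nonneg _) _)
    _ = ((∏ i, ‖gaussSum (T ^ b i)⁻¹ ψ‖)
      * ‖∑ x : Fin M → L, ∏ i, (T ^ b i) (∑ k, l i k * x k)‖) ^ N := by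
        rw [mul_pow, mul_comm]
    _ ≤ (‖((Fintype.card L : ℕ) : PadicAlgCl c)‖ ^ M) ^ N :=
        pow_le_pow_left₀ (mul_nonneg (prod_nonneg fun i _ => norm_nonneg _) (norm_nonneg _)) h4 N
    _ = _ := by rw [h6, ← pow_mul, ← pow_mul, mul_assoc]

end

end Pool.Agent.W528.HB
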