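import Pool.Agent.W528.HB.Est
import Pool.Agent.W528.HA.Main

/-!
# No root of unity is an eigenvalue of Frobenius: any characteristic
-/

set_option autoImplicit false

namespace Pool.Agent.W528.HB

open Finset Polynomial Pool.Agent.W528.HA

lemma pow_mod_one {c N f : ℕ} (hN : 1 ≤ N) (hf : N ∣ c ^ f - 1) (hc : 1 ≤ c) (n : ℕ) :
    c ^ (f * n) ≡ 1 [MOD N] := by
  have h1 : c ^ f ≡ 1 [MOD N] := by
    have h2 : 1 ≤ c ^ f := Nat.one_le_pow _ _ hc
    exact ((Nat.modEq_iff_dvd' h2).mpr hf).symm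
  rw [pow_mul]
  simpa using h1.pow n

lemma sum_period {c N f : ℕ} (hN : 1 ≤ N) (hf : N ∣ c ^ f - 1) (hc : 1 ≤ c) (b n : ℕ) :
    ∑ s ∈ range (f * n), (b * c ^ s) % N = n * ∑ s ∈ range f, (b * c ^ s) % N := by
  induction n with
  | zero => simp
  | succ n ih =>
    rw [mul_add, mul_one, sum_range_add, ih, add_mul, one_mul]
    congr 1
    refine sum_congr rfl fun s _ => ?_
    have h1 : b * c ^ (f * n + s) ≡ b * c ^ s [MOD N] := by
      rw [pow_add]
      have h2 := (pow_mod_one hN hf hc n).mul_right (c ^ s)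
      rw [one_mul] at h2
      exact h2.mul_left b
    exact h1

section

variable {c : ℕ} [Fact c.Prime]

lemma natCast_ne_zero_of_dvd {k : Type} [Field k] [CharP k c] {N f : ℕ} (hN : N ∣ c ^ f - 1)
    (hf : 0 < f) : (N : k) ≠ 0 := by
  intro h
  rw [CharP.cast_eq_zero_iff k c] at h
  have hc : c.Prime := Fact.out
  have h1 : c ∣ c ^ f - 1 := h.trans hN
  have h2 : c ∣ c ^ f := dvd_pow_self c (by omega)
  have h3 : 1 ≤ c ^ f := Nat.one_le_pow _ _ hc.one_lt.le
  have h4 := (Nat.dvd_sub_iff_right h3 h2).mp h1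
  exact absurd (Nat.le_of_dvd one_pos h4) (not_le.mpr hc.one_lt)

theorem kum_est (hGD : GD) (hDG : DG) (hDI : DI) (hAY : AY) (hGO : GO) (hTT : TT)
    {k : Type} [Field k] [CharP k c] {R : Subring (PadicAlgCl c)} {res : R →+* k}
    (hR : IsRes c R res) {N : ℕ} (hN : 2 ≤ N) {f n : ℕ} (hf : 0 < f) (hn : 0 < n)
    (hNf : N ∣ c ^ f - 1)
    (L : Type) [Field L] [Fintype L] [CharP L c] (hcard : Fintype.card L = c ^ (f * n))
    (e : L →+* k) {z : L} (hz : IsPrimitiveRoot z N) {Ω : PadicAlgCl c}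
    (hΩ : IsPrimitiveRoot Ω N) (hΩz : ∃ h : Ω ∈ R, res ⟨Ω, h⟩ = e z)
    {ι : Type} [Fintype ι] (d : ℕ) (l : ι → Fin (2 * d + 1) → L) (a : ι → ℕ) (ha : ∀ i, a i < N)
    {j : ℕ} (hj : j.Coprime N)
    (hjd : ∑ i, ∑ s ∈ range f, (j * a i * c ^ s) % N < f * N * (d + 1)) :
    ‖kummerSum L (PadicAlgCl c) N (2 * d + 1) l a z (Ω ^ j)‖ ^ N
      ≤ ‖((Fintype.card L : ℕ) : PadicAlgCl c)‖ ^ (d * N) * ‖((c : ℕ) : PadicAlgCl c)‖ ^ n := by
  classical
  have hc1 : 1 ≤ c := (Fact.out : c.Prime).one_lt.le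
  have hNk : (N : k) ≠ 0 := natCast_ne_zero_of_dvd hNf hf
  obtain ⟨w, hw⟩ := hTT c k R res hR L e
  obtain ⟨⟨ψ, hψ⟩, hprop⟩ := hAY c L
  obtain ⟨hψ1, hψ2⟩ := hprop ψ hψ
  have hgo := hGO c k R res hR L e w hw ψ hψ
  have hd := dvd_card_of_root hz (by omega)
  have hTz := fun (b : ℕ) (y : L) (hb : 1 ≤ b) =>
    kvT hw (by omega) hNk hz hΩ.pow_eq_one hΩz b y hb
  set T := w ^ ((Fintype.card L - 1) / N) with hT
  have hTN : T ^ N = 1 := T_pow_card w hd
  have hne : ∀ b, 1 ≤ b → b < N → T ^ b ≠ 1 := by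
    intro b hb hbN h
    obtain ⟨y, hy0, hy⟩ := exists_pow_eq' L (by omega) hd hz.pow_eq_one
    have h1 := hTz 1 y le_rfl
    rw [pow_one, pow_one, hy] at h1
    have h2 : kv N z Ω z = Ω := by
      unfold kv
      rw [sum_eq_single 1]
      · rw [pow_one, if_pos rfl, pow_one]
      · intro i hi hi1
        rw [mem_range] at hi
        rw [if_neg]
        intro h
        apply hi1
        apply hz.pow_inj hi (by omega)
        rw [pow_one]
        exact h.symm
      · intro h
        exact absurd (mem_range.mpr (by omega)) h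
    rw [h2] at h1
    have h3 : (T ^ b) y = (1 : MulChar L (PadicAlgCl c)) y := by rw [h]
    rw [MulChar.pow_apply' T (by omega), h1, MulChar.one_apply (isUnit_iff_ne_zero.mpr hy0)] at h3
    exact hΩ.pow_ne_one_of_pos_of_lt (by omega) hbN h3
  rw [kum_eq hN L T hTN hTz (2 * d + 1) l a ha hj]
  have hest := est hGD hDG hDI w ψ hψ1 hψ2 hgo hcard hd (Nat.mul_pos hf hn) hne (2 * d + 1)
    {i // a i ≠ 0} (fun i k => l i.1 k) (fun i => (j * a i.1) % N) (by
      intro i
      refine ⟨?_, Nat.mod_lt _ (by omega)⟩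
      rw [Nat.one_le_iff_ne_zero]
      intro h
      have h1 : N ∣ j * a i.1 := Nat.dvd_of_mod_eq_zero h
      have h2 : N ∣ a i.1 := (Nat.Coprime.symm hj).dvd_of_dvd_mul_left h1
      exact absurd (Nat.le_of_dvd (Nat.pos_of_ne_zero i.2) h2) (by have := ha i.1; omega))
  -- the exponent
  have h1 : ∑ i : {i // a i ≠ 0}, ∑ s ∈ range (f * n), ((j * a i.1) % N * c ^ s) % N
      = n * ∑ i, ∑ s ∈ range f, (j * a i * c ^ s) % N := by
    rw [mul_sum]
    have h2 : ∀ i : {i // a i ≠ 0}, ∑ s ∈ range (f * n), ((j * a i.1) % N * c ^ s) % N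
        = n * ∑ s ∈ range f, (j * a i.1 * c ^ s) % N := by
      intro i
      rw [sum_period (by omega) hNf hc1]
      congr 1
      refine sum_congr rfl fun s _ => ?_
      exact (Nat.mod_modEq (j * a i.1) N).mul_right (c ^ s)
    rw [sum_congr rfl fun i _ => h2 i]
    rw [← sum_subtype (univ.filter fun i => a i ≠ 0) (p := fun i => a i ≠ 0)
      (by intro i; simp) (fun i => n * ∑ s ∈ range f, (j * a i * c ^ s) % N)]
    rw [sum_filter]
    refine sum_congr rfl fun i _ => ?_
    by_cases h : a i = 0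
    · rw [h, if_neg (by simp)]
      simp
    · rw [if_pos h]
  rw [h1] at hest
  set A := ∑ i, ∑ s ∈ range f, (j * a i * c ^ s) % N with hA
  set ρ := ‖((c : ℕ) : PadicAlgCl c)‖ with hρ
  have hρ0 : 0 < ρ := by
    rw [hρ, norm_pos_iff]
    exact_mod_cast (Fact.out : c.Prime).ne_zero
  have hρ1 : ρ ≤ 1 := norm_natCast_le c
  have hcardn : ‖((Fintype.card L : ℕ) : PadicAlgCl c)‖ = ρ ^ (f * n) := by
    rw [hcard]
    push_cast
    rw [norm_pow]
  rw [hcardn, ← pow_mul, ← pow_add]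
  have h3 : n * A + (f * n * (d * N) + n) ≤ f * n * (2 * d + 1) * N := by
    have h4 : A + 1 ≤ f * N * (d + 1) := hjd
    calc n * A + (f * n * (d * N) + n) = n * (A + 1) + f * n * (d * N) := by ring
      _ ≤ n * (f * N * (d + 1)) + f * n * (d * N) := by
          exact Nat.add_le_add_right (Nat.mul_le_mul_left n h4) _
      _ = f * n * (2 * d + 1) * N := by ring
  have h5 : ρ ^ (f * n * (2 * d + 1) * N) ≤ ρ ^ (n * A) * ρ ^ (f * n * (d * N) + n) := by
    rw [← pow_add]
    exact pow_le_pow_of_le_one hρ0.le hρ1 h3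
  have h6 := hest.trans h5
  rw [mul_comm (ρ ^ (n * A))] at h6
  exact le_of_mul_le_mul_right h6 (pow_pos hρ0 _)

theorem no_root (hGD : GD) (hDG : DG) (hDI : DI) (hAY : AY) (hGO : GO) (hTT : TT) (hTP : TP)
    (hTE : TE) (hAL : AL) (hBD : BD) (hEM : EM) {N : ℕ} (hN : 2 ≤ N)
    (κ : Type) [Field κ] [Fintype κ] [CharP κ c] {f : ℕ} (hf : Fintype.card κ = c ^ f)
    {ι : Type} [Fintype ι] (d : ℕ)
    (l : ι → Fin (2 * d + 1) → κ) (a : ι → ℕ) (ha : ∀ i, a i < N)
    {j : ℕ} (hj : j.Coprime N)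
    (hjd : ∑ i, ∑ s ∈ range f, (j * a i * c ^ s) % N < f * N * (d + 1))
    {z : κ} (hz : IsPrimitiveRoot z N) {E V : Type} [Field E] [CharZero E] [IsAlgClosed E]
    [AddCommGroup V] [Module E V] [FiniteDimensional E V] {μ : E} (hμ : IsPrimitiveRoot μ N)
    (A : Module.End E V) (hA : TraceFormula κ N d l a z μ A) (m : ℕ) (hm : 0 < m) (v : V)
    (hv : (A ^ m) v = v) : v = 0 := by
  classical
  by_contra hv0
  have hc2 : 2 ≤ c := (Fact.out : c.Prime).two_le
  have hf0 : 0 < f := by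
    rcases Nat.eq_zero_or_pos f with h | h
    · rw [h, pow_zero] at hf
      have := Fintype.one_lt_card (α := κ)
      omega
    · exact h
  have hNf : N ∣ c ^ f - 1 := by
    rw [← hf]
    exact dvd_card_of_root hz (by omega)
  -- an eigenvalue which is a root of unity
  obtain ⟨e, he, hem⟩ : ∃ e : E, Module.End.HasEigenvalue A e ∧ e ^ m = 1 := by
    have h1 : Module.End.HasEigenvalue (A ^ m) (1 : E) :=
      Module.End.hasEigenvalue_of_hasEigenvector (x := v)
        ⟨by rw [Module.End.mem_eigenspace_iff, one_smul, hv], hv0⟩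
    have h2 : (1 : E) ∈ spectrum E (A ^ m) := Module.End.hasEigenvalue_iff_mem_spectrum.mp h1
    rw [spectrum.map_pow_of_pos A hm] at h2
    obtain ⟨e, he, hem⟩ := h2
    exact ⟨e, Module.End.hasEigenvalue_iff_mem_spectrum.mpr he, hem⟩
  have he0 : e ≠ 0 := by
    rintro rfl
    rw [zero_pow (by omega)] at hem
    exact zero_ne_one hem
  obtain ⟨S, mult, hS, hSe, htr⟩ := hTE E V A
  have heS := hSe e he0 he
  -- the field of values
  have hμalg : IsAlgebraic ℚ μ := by
    have h1 : IsIntegral ℤ μ := hμ.isIntegral (by omega)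
    exact (h1.tower_top (A := ℚ)).isAlgebraic
  have hext : ∀ n, 1 ≤ n → ∃ (L : Type) (_ : Field L) (_ : Fintype L) (_ : Algebra κ L),
      Module.finrank κ L = n := by
    intro n hn
    have : NeZero n := ⟨by omega⟩
    let _ : Fintype (FiniteField.Extension κ c n) := Fintype.ofFinite _
    exact ⟨FiniteField.Extension κ c n, inferInstance, inferInstance, inferInstance,
      FiniteField.finrank_extension κ c n⟩
  have hpoly : ∀ n, 1 ≤ n → ∃ g : ℚ[X], aeval μ g = ∑ a ∈ S, (mult a : E) * a ^ n := by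
    intro n hn
    obtain ⟨L, _, _, _, hL⟩ := hext n hn
    have h1 := hA L
    rw [hL, htr n hn] at h1
    have hQ : (Fintype.card L : ℕ) ≠ 0 := Fintype.card_ne_zero
    have hQ1 := Fintype.one_lt_card (α := L)
    set Q : ℕ := Fintype.card L with hQdef
    refine ⟨C ((((Q : ℚ) - 1) * (Q : ℚ) ^ d)⁻¹)
      * kummerSum L ℚ[X] N (2 * d + 1) (fun i k => algebraMap κ L (l i k)) a
        (algebraMap κ L z) X, ?_⟩
    rw [map_mul, aeval_C]
    have h2 : aeval μ (kummerSum L ℚ[X] N (2 * d + 1) (fun i k => algebraMap κ L (l i k)) a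
        (algebraMap κ L z) X)
        = kummerSum L E N (2 * d + 1) (fun i k => algebraMap κ L (l i k)) a
          (algebraMap κ L z) μ := by
      have h3 := map_kummerSum ((aeval μ : ℚ[X] →ₐ[ℚ] E) : ℚ[X] →+* E) N (2 * d + 1)
        (fun i k => algebraMap κ L (l i k)) a (algebraMap κ L z) X
      rw [RingHom.coe_coe, aeval_X] at h3
      exact h3
    rw [h2, ← h1]
    rw [map_inv₀, map_mul, map_sub, map_pow, map_natCast, map_one]
    have h4 : ((Q : E) - 1) ≠ 0 := by
      rw [sub_ne_zero]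
      exact_mod_cast hQ1.ne'
    have h5 : (Q : E) ^ d ≠ 0 := pow_ne_zero _ (by exact_mod_cast hQ)
    field_simp
  have halg := hAL E μ hμalg S mult hS hpoly
  -- the residue field and the root of unity
  obtain ⟨k, _, R, res, _, _, hR⟩ := hTP c
  have hNk : (N : k) ≠ 0 := natCast_ne_zero_of_dvd hNf hf0
  have _ : Algebra (ZMod c) κ := ZMod.algebra κ c
  have _ : Algebra (ZMod c) k := ZMod.algebra k c
  have hκk : Nonempty (κ →ₐ[ZMod c] k) := ⟨IsAlgClosed.lift⟩
  obtain ⟨eκ⟩ := hκk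
  obtain ⟨Ω0, hΩ0⟩ : ∃ ζ : PadicAlgCl c, IsPrimitiveRoot ζ N := by
    have : NeZero ((N : ℕ) : PadicAlgCl c) := ⟨by exact_mod_cast (by omega : N ≠ 0)⟩
    exact HasEnoughRootsOfUnity.exists_primitiveRoot (PadicAlgCl c) N
  have hΩ0R : Ω0 ∈ R := (hR.1 Ω0).mpr (norm_pow_one (by omega) hΩ0.pow_eq_one).le
  have hres0 : IsPrimitiveRoot (res ⟨Ω0, hΩ0R⟩) N := by
    have : NeZero ((N : ℕ) : k) := ⟨hNk⟩
    rw [← Polynomial.isRoot_cyclotomic_iff]
    have h1 : (Polynomial.cyclotomic N R).IsRoot ⟨Ω0, hΩ0R⟩ := by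
      have h2 : (Polynomial.cyclotomic N (PadicAlgCl c)).IsRoot Ω0 :=
        hΩ0.isRoot_cyclotomic (by omega)
      rw [Polynomial.IsRoot.def] at h2 ⊢
      apply Subtype.ext
      have h3 := Polynomial.eval₂_hom R.subtype (p := Polynomial.cyclotomic N R) ⟨Ω0, hΩ0R⟩
      rw [← Polynomial.eval_map, Polynomial.map_cyclotomic] at h3
      change R.subtype _ = R.subtype 0
      rw [← h3, map_zero]
      exact h2
    have h2 := h1.map (f := res)
    rwa [Polynomial.map_cyclotomic] at h2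
  obtain ⟨i, hiN, hi⟩ : ∃ i < N, res ⟨Ω0, hΩ0R⟩ ^ i = eκ z := by
    have : NeZero N := ⟨by omega⟩
    exact hres0.eq_pow_of_pow_eq_one (by rw [← map_pow, hz.pow_eq_one, map_one])
  have hico : i.Coprime N := by
    have h1 : IsPrimitiveRoot (res ⟨Ω0, hΩ0R⟩ ^ i) N := by
      rw [hi]
      exact hz.map_of_injective eκ.injective
    exact (hres0.pow_iff_coprime (by omega) i).mp h1
  set Ω := Ω0 ^ i with hΩdef
  have hΩ : IsPrimitiveRoot Ω N := hΩ0.pow_of_coprime i hico
  have hΩR : Ω ∈ R := R.pow_mem hΩ0R i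
  have hΩz : res ⟨Ω, hΩR⟩ = eκ z := by
    rw [← hi, ← map_pow]
    rfl
  have hωj : IsPrimitiveRoot (Ω ^ j) N := hΩ.pow_of_coprime j hj
  obtain ⟨fe, hfe⟩ := hEM E (PadicAlgCl c) N μ (Ω ^ j) (by omega) hμ hωj
  have hμK : μ ∈ algebraicClosure ℚ E := (mem_algebraicClosure_iff).mpr hμalg
  set μK : algebraicClosure ℚ E := ⟨μ, hμK⟩ with hμKdef
  have hfμ : fe μK = Ω ^ j := hfe μK rfl
  set g : E → PadicAlgCl c := fun x => if h : x ∈ algebraicClosure ℚ E then fe ⟨x, h⟩ else 0
    with hgdef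
  have hmem : ∀ x ∈ S, x ∈ algebraicClosure ℚ E := fun x hx =>
    (mem_algebraicClosure_iff).mpr (halg x hx)
  have hg : ∀ (x : E) (hx : x ∈ algebraicClosure ℚ E), g x = fe ⟨x, hx⟩ := by
    intro x hx
    simp only [hgdef]
    rw [dif_pos hx]
  have hinj : Set.InjOn g (S : Set E) := by
    intro x hx y hy hxy
    rw [hg x (hmem x hx), hg y (hmem y hy)] at hxy
    have := fe.injective hxy
    exact congrArg Subtype.val this
  set ρ := ‖((c : ℕ) : PadicAlgCl c)‖ with hρ
  have hρ0 : 0 < ρ := by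
    rw [hρ, norm_pos_iff]
    exact_mod_cast (Fact.out : c.Prime).ne_zero
  have hρ1 : ρ < 1 := by
    have h1 : algebraMap ℚ_[c] (PadicAlgCl c) ((c : ℕ) : ℚ_[c]) = ((c : ℕ) : PadicAlgCl c) :=
      map_natCast _ _
    rw [hρ, ← h1, PadicAlgCl.norm_extends, Padic.norm_natCast_lt_one_iff]
  set ρN := ρ ^ ((N : ℝ)⁻¹) with hρN
  have hρN0 : 0 < ρN := Real.rpow_pos_of_pos hρ0 _
  have hρN1 : ρN < 1 := Real.rpow_lt_one hρ0.le hρ1 (by positivity)
  have hρNN : ρN ^ N = ρ := by
    rw [hρN, ← Real.rpow_natCast, ← Real.rpow_mul hρ0.le, inv_mul_cancel₀ (by positivity),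
      Real.rpow_one]
  -- the bound
  have hbound : ∀ n, 1 ≤ n → ‖∑ x ∈ S, (mult x : PadicAlgCl c) * g x ^ n‖ ≤ ρN ^ n := by
    intro n hn
    obtain ⟨L, _, _, _, hL⟩ := hext n hn
    have : CharP L c := charP_of_injective_algebraMap (algebraMap κ L).injective c
    have hcardL : Fintype.card L = c ^ (f * n) := by
      rw [pow_mul, ← hf, ← hL]
      exact Module.card_eq_pow_finrank
    -- the embedding of L
    obtain ⟨eL, heL⟩ : ∃ eL : L →+* k, ∀ y : κ, eL (algebraMap κ L y) = eκ y := by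
      letI : Algebra κ k := (eκ : κ →+* k).toAlgebra
      have : Module.Finite κ L := .of_finite
      exact ⟨((IsAlgClosed.lift : L →ₐ[κ] k) : L →+* k), fun y =>
        (IsAlgClosed.lift : L →ₐ[κ] k).commutes y⟩
    have hzL : IsPrimitiveRoot (algebraMap κ L z) N :=
      hz.map_of_injective (algebraMap κ L).injective
    have h1 := hA L
    rw [hL, htr n hn] at h1
    have hest := kum_est hGD hDG hDI hAY hGO hTT hR hN hf0 (by omega : 0 < n) hNf L hcardL eL
      hzL hΩ ⟨hΩR, by rw [hΩz, heL]⟩ d (fun i k => algebraMap κ L (l i k)) a ha hj hjd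
    -- the equation in the field of algebraic numbers
    have h2 : (((Fintype.card L : ℕ) : algebraicClosure ℚ E) - 1)
        * ((Fintype.card L : ℕ) : algebraicClosure ℚ E) ^ d
        * ∑ x ∈ S.attach, ((mult x.1 : ℕ) : algebraicClosure ℚ E)
          * (⟨x.1, hmem x.1 x.2⟩ : algebraicClosure ℚ E) ^ n
        = kummerSum L (algebraicClosure ℚ E) N (2 * d + 1)
          (fun i k => algebraMap κ L (l i k)) a (algebraMap κ L z) μK := by
      apply (algebraMap (algebraicClosure ℚ E) E).injective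
      rw [map_kummerSum]
      rw [map_mul, map_mul, map_sub, map_one, map_pow, map_natCast, map_sum]
      have h3 : ∑ x ∈ S.attach, algebraMap (algebraicClosure ℚ E) E
          (((mult x.1 : ℕ) : algebraicClosure ℚ E)
          * (⟨x.1, hmem x.1 x.2⟩ : algebraicClosure ℚ E) ^ n)
          = ∑ x ∈ S, (mult x : E) * x ^ n := by
        rw [← sum_attach S]
        refine sum_congr rfl fun x _ => ?_
        rw [map_mul, map_pow, map_natCast]
        rfl
      rw [h3, h1]
      rfl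
    have h4 := congrArg fe h2
    rw [map_kummerSum, hfμ, map_mul, map_mul, map_sub, map_one, map_pow, map_natCast,
      map_sum] at h4
    have h5 : ∑ x ∈ S.attach, fe (((mult x.1 : ℕ) : algebraicClosure ℚ E)
          * (⟨x.1, hmem x.1 x.2⟩ : algebraicClosure ℚ E) ^ n)
        = ∑ x ∈ S, (mult x : PadicAlgCl c) * g x ^ n := by
      rw [← sum_attach S]
      refine sum_congr rfl fun x _ => ?_
      rw [map_mul, map_pow, map_natCast, hg x.1 (hmem x.1 x.2)]
    rw [h5] at h4
    have h6 := congrArg norm h4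
    rw [norm_mul, norm_mul, norm_pow, norm_card_sub_one, one_mul] at h6
    rw [← h6, mul_pow, ← pow_mul] at hest
    have hq0 := norm_card_pos (c := c) (L := L)
    have h7 := le_of_mul_le_mul_left hest (pow_pos hq0 _)
    have h8 : ‖∑ x ∈ S, (mult x : PadicAlgCl c) * g x ^ n‖ ^ N ≤ (ρN ^ n) ^ N := by
      rw [← pow_mul, mul_comm n N, pow_mul, hρNN]
      exact h7
    exact le_of_pow_le_pow_left₀ (by omega) (pow_nonneg hρN0.le _) h8
  -- apply the boundedness lemma
  have hfin := hBD (PadicAlgCl c) (S.image g) (fun y => ∑ x ∈ S with g x = y, mult x)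
    ρN hρN0.le (by
      intro y hy
      obtain ⟨x, hx, rfl⟩ := mem_image.mp hy
      refine ⟨?_, ?_⟩
      · rw [hg x (hmem x hx)]
        intro h
        have h1 : (⟨x, hmem x hx⟩ : algebraicClosure ℚ E) = 0 := by
          apply fe.injective
          rw [h, map_zero]
        exact (hS x hx).1 (congrArg Subtype.val h1)
      · apply sum_pos (fun x hx => (hS x (mem_filter.mp hx).1).2)
        exact ⟨x, mem_filter.mpr ⟨hx, rfl⟩⟩) (by
      intro n hn
      have h1 : ∑ y ∈ S.image g, ((∑ x ∈ S with g x = y, mult x : ℕ) : PadicAlgCl c) * y ^ n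
          = ∑ x ∈ S, (mult x : PadicAlgCl c) * g x ^ n := by
        rw [sum_image hinj]
        refine sum_congr rfl fun x hx => ?_
        have h2 : (S.filter fun x' => g x' = g x) = {x} := by
          ext x'
          rw [mem_filter, mem_singleton]
          constructor
          · rintro ⟨h3, h4⟩
            exact hinj h3 hx h4
          · rintro rfl
            exact ⟨hx, rfl⟩
        rw [h2, sum_singleton]
      rw [h1]
      exact hbound n hn) (g e) (mem_image_of_mem g heS)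
  have hge : g e ^ m = 1 := by
    rw [hg e (hmem e heS), ← map_pow]
    have : (⟨e, hmem e heS⟩ : algebraicClosure ℚ E) ^ m = 1 := by
      apply Subtype.ext
      exact hem
    rw [this, map_one]
  have hge1 := norm_pow_one (by omega) hge
  rw [hge1] at hfin
  exact absurd hfin (not_le.mpr hρN1)

end

end Pool.Agent.W528.HB
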