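import Mathlib

/-!
# Gauss sums in any characteristic: statements of the parts
-/

set_option autoImplicit false

namespace Pool.Agent.W528.HB

open Finset

/-- `R` is the closed unit ball and `res` has kernel the open unit ball. -/
def IsRes (c : ℕ) [Fact c.Prime] {k : Type} [Field k] (R : Subring (PadicAlgCl c))
    (res : R →+* k) : Prop :=
  (∀ x, x ∈ R ↔ ‖x‖ ≤ 1) ∧ ∀ x : R, res x = 0 ↔ ‖(x : PadicAlgCl c)‖ < 1

/-- The residue field of `PadicAlgCl c` is algebraically closed. -/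
def TP : Prop :=
  ∀ (c : ℕ) [Fact c.Prime], ∃ (k : Type) (_ : Field k) (R : Subring (PadicAlgCl c))
    (res : R →+* k), IsAlgClosed k ∧ CharP k c ∧ IsRes c R res

/-- `w` is the Teichmueller character of `L`, embedded into the residue field by `e`. -/
def IsW (c : ℕ) [Fact c.Prime] {k : Type} [Field k] (R : Subring (PadicAlgCl c))
    (res : R →+* k) {L : Type} [Field L] (e : L →+* k) (w : MulChar L (PadicAlgCl c)) : Prop :=
  ∀ y : L, ∃ h : w y ∈ R, res ⟨w y, h⟩ = e y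

/-- Existence of the Teichmueller character. -/
def TT : Prop :=
  ∀ (c : ℕ) [Fact c.Prime] (k : Type) [Field k] (R : Subring (PadicAlgCl c)) (res : R →+* k),
    IsRes c R res → ∀ (L : Type) [Field L] [Fintype L] [CharP L c] (e : L →+* k),
    ∃ w : MulChar L (PadicAlgCl c), IsW c R res e w

/-- `ψ(y) = ζ ^ Tr(y)` with a primitive `c`-th root of unity `ζ`. -/
def IsTr (c : ℕ) [Fact c.Prime] (L : Type) [Field L] [Fintype L] [CharP L c]
    (ψ : AddChar L (PadicAlgCl c)) : Prop :=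
  letI := ZMod.algebra L c
  ∃ ζ : PadicAlgCl c, IsPrimitiveRoot ζ c ∧
    ∀ y : L, ψ y = ζ ^ (Algebra.trace (ZMod c) L y).val

/-- Existence and properties of the standard additive character. -/
def AY : Prop :=
  ∀ (c : ℕ) [Fact c.Prime] (L : Type) [Field L] [Fintype L] [CharP L c],
    (∃ ψ : AddChar L (PadicAlgCl c), IsTr c L ψ) ∧
    ∀ ψ : AddChar L (PadicAlgCl c), IsTr c L ψ → ψ.IsPrimitive ∧ ∀ y, ψ (y ^ c) = ψ y

/-- The Gauss sum of the inverse of the Teichmueller character is not too small. -/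
def GO : Prop :=
  ∀ (c : ℕ) [Fact c.Prime] (k : Type) [Field k] (R : Subring (PadicAlgCl c)) (res : R →+* k),
    IsRes c R res → ∀ (L : Type) [Field L] [Fintype L] [CharP L c] (e : L →+* k)
    (w : MulChar L (PadicAlgCl c)), IsW c R res e w →
    ∀ ψ : AddChar L (PadicAlgCl c), IsTr c L ψ →
      ‖((c : ℕ) : PadicAlgCl c)‖ ≤ ‖gaussSum w⁻¹ ψ‖ ^ (c - 1)

/-- Gauss sums: products. -/
def SA : Prop :=
  ∀ (c : ℕ) [Fact c.Prime] (L : Type) [Field L] [Fintype L] [CharP L c]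
    (χ φ : MulChar L (PadicAlgCl c)) (ψ : AddChar L (PadicAlgCl c)), ψ.IsPrimitive →
      ‖gaussSum χ ψ‖ * ‖gaussSum φ ψ‖ ≤ ‖gaussSum (χ * φ) ψ‖

/-- Stickelberger's inequality in terms of digits. -/
def DG : Prop :=
  ∀ (c : ℕ) [Fact c.Prime] (L : Type) [Field L] [Fintype L] [CharP L c]
    (w : MulChar L (PadicAlgCl c)) (ψ : AddChar L (PadicAlgCl c)), ψ.IsPrimitive →
      (∀ y, ψ (y ^ c) = ψ y) → ‖((c : ℕ) : PadicAlgCl c)‖ ≤ ‖gaussSum w⁻¹ ψ‖ ^ (c - 1) →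
      ∀ n : ℕ, ‖((c : ℕ) : PadicAlgCl c)‖ ^ (Nat.digits c n).sum
        ≤ ‖gaussSum (w ^ n)⁻¹ ψ‖ ^ (c - 1)

/-- The digits of `b (c ^ F - 1) / N`. -/
def DI : Prop :=
  ∀ (c N F : ℕ), 2 ≤ c → N ∣ c ^ F - 1 → 0 < F → ∀ b : ℕ, b < N →
    N * (Nat.digits c (b * ((c ^ F - 1) / N))).sum
      = (c - 1) * ∑ s ∈ range F, (b * c ^ s) % N

end Pool.Agent.W528.HB
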